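import Pool.Agent.helper63.NU.Defs3
import Pool.Agent.helper74.NU.Q2
import Pool.Agent.helper17.NU.Q4a
import Pool.Agent.helper51.NU.B3
import Pool.Agent.helper80.NU.B4

set_option autoImplicit false
set_option linter.all false

/-! Module Q4b: linear bound for the order of vanishing. -/

open MeasureTheory Filter Topology Set
open scoped ContDiff Manifold Matrix ENNReal ComplexOrder

noncomputable section

namespace Pool.Agent.helper63.NU

variable {n : ℕ} {M : Type*} [TopologicalSpace M] [ChartedSpace (E n) M]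
  [IsManifold 𝓘(ℂ, E n) ω M]
variable [CompactSpace M] [T2Space M] [ConnectedSpace M]
variable [MeasurableSpace M] [BorelSpace M] {μ : Measure M} {φ : Fam n M ℝ}

namespace Q4baux

omit [CompactSpace M] [T2Space M] [ConnectedSpace M] [IsManifold 𝓘(ℂ, E n) ω M]
  [ChartedSpace (E n) M] [TopologicalSpace M] [MeasurableSpace M] [BorelSpace M] in
theorem vanO_mono {f : E n → ℂ} {p : E n} {m : ℕ} (h : VanO f p (m + 1)) : VanO f p m := by
  obtain ⟨K, hK⟩ := h
  refine ⟨|K|, ?_⟩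
  have h1 : ∀ᶠ y in 𝓝 p, ‖y - p‖ ≤ 1 := by
    have : Tendsto (fun y : E n => ‖y - p‖) (𝓝 p) (𝓝 ‖p - p‖) :=
      ((continuous_id.sub continuous_const).norm).tendsto p
    rw [sub_self, norm_zero] at this
    exact (this.eventually (gt_mem_nhds one_pos)).mono (fun y hy => le_of_lt hy)
  filter_upwards [hK, h1] with y hy hy1
  calc ‖f y‖ ≤ K * ‖y - p‖ ^ (m + 1) := hy
    _ ≤ |K| * ‖y - p‖ ^ (m + 1) := by gcongr; exact le_abs_self K
    _ ≤ |K| * ‖y - p‖ ^ m := by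
        gcongr 1
        exact pow_le_pow_of_le_one (norm_nonneg _) hy1 (Nat.le_succ m)

theorem vanO_mul {f g : E n → ℂ} {p : E n} {a b : ℕ} (hf : VanO f p a) (hg : VanO g p b) :
    VanO (f * g) p (a + b) := by
  obtain ⟨K, hK⟩ := hf
  obtain ⟨L, hL⟩ := hg
  refine ⟨K * L, ?_⟩
  filter_upwards [hK, hL] with y h1 h2
  rw [Pi.mul_apply, norm_mul, pow_add]
  calc ‖f y‖ * ‖g y‖ ≤ (K * ‖y - p‖ ^ a) * (L * ‖y - p‖ ^ b) :=
        mul_le_mul h1 h2 (norm_nonneg _) ((norm_nonneg _).trans h1)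
    _ = K * L * (‖y - p‖ ^ a * ‖y - p‖ ^ b) := by ring

theorem vanO_pow {f : E n → ℂ} {p : E n} {m : ℕ} (hf : VanO f p m) (l : ℕ) :
    VanO (f ^ l) p (l * m) := by
  induction l with
  | zero =>
    rw [pow_zero, zero_mul]
    exact ⟨1, Eventually.of_forall (fun y => by simp)⟩
  | succ l ih =>
    rw [pow_succ, Nat.succ_mul]
    exact vanO_mul ih hf

theorem vanO_zero_of_cont {f : E n → ℂ} {p : E n} (hf : ContinuousAt f p) : VanO f p 0 := by
  refine ⟨‖f p‖ + 1, ?_⟩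
  have h := hf.norm.eventually (gt_mem_nhds (lt_add_one ‖f p‖))
  filter_upwards [h] with y hy
  rw [pow_zero, mul_one]
  exact le_of_lt hy

omit [IsManifold 𝓘(ℂ, E n) ω M] [CompactSpace M] [T2Space M] [ConnectedSpace M]
  [MeasurableSpace M] [BorelSpace M] in
theorem VV_zero {k : ℕ} {e : Ch n M} (he : e ∈ atlas (E n) M) {p : E n} (hp : p ∈ e.target) :
    VV k e p 0 = H0 n M k := by
  apply le_antisymm
  · intro s hs
    exact hs.1
  · intro s hs
    refine ⟨hs, ?_⟩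
    apply vanO_zero_of_cont
    have h1 : ContDiffOn ℝ ∞ (s e) e.target := hs.1.smooth e he
    exact h1.continuousOn.continuousAt (e.open_target.mem_nhds hp)

omit [IsManifold 𝓘(ℂ, E n) ω M] [CompactSpace M] [T2Space M] [ConnectedSpace M]
  [MeasurableSpace M] [BorelSpace M] in
theorem VV_succ (k : ℕ) (e : Ch n M) (p : E n) (m : ℕ) :
    (VV k e p (m + 1) : Submodule ℂ (Fam n M ℂ)) ≤ VV k e p m :=
  fun _ hs => ⟨hs.1, vanO_mono hs.2⟩

theorem pow_ne_zero' {k : ℕ} {s : Fam n M ℂ} (hs : s ∈ H0 n M k) (hs0 : s ≠ 0) (l : ℕ)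
    (hl : 1 ≤ l) : s ^ l ≠ 0 := by
  induction l, hl using Nat.le_induction with
  | base => rwa [pow_one]
  | succ l hl ih =>
    rw [pow_succ]
    exact H0_mul_ne_zero (H0_pow hs l hl) hs ih hs0

theorem finrank_le_VV (hφ : IsPos 1 φ) (hμ : IsDens μ φ) {k l m : ℕ} (hk : 1 ≤ k) (hl : 1 ≤ l)
    {e : Ch n M} (he : e ∈ atlas (E n) M) {p : E n} (hp : p ∈ e.target)
    {t : Fam n M ℂ} (ht : t ∈ H0 n M k) (ht0 : t ≠ 0) (hv : VanO (t e) p m) :
    Module.finrank ℂ (H0 n M (l * k)) ≤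
      Module.finrank ℂ (VV (l * k + l * k) e p (l * m) : Submodule ℂ (Fam n M ℂ)) := by
  have hlk : 1 ≤ l * k := Nat.mul_pos hl hk
  haveI : FiniteDimensional ℂ (H0 n M (l * k + l * k)) :=
    H0_finiteDimensional hφ hμ (by omega)
  haveI : FiniteDimensional ℂ (H0 n M (l * k)) := H0_finiteDimensional hφ hμ hlk
  haveI : FiniteDimensional ℂ (VV (l * k + l * k) e p (l * m) : Submodule ℂ (Fam n M ℂ)) :=
    Submodule.finiteDimensional_of_le (S₂ := H0 n M (l * k + l * k)) (fun s hs => hs.1)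
  have htl : t ^ l ∈ H0 n M (l * k) := H0_pow ht l hl
  have htl0 : t ^ l ≠ 0 := pow_ne_zero' ht ht0 l hl
  let f : H0 n M (l * k) →ₗ[ℂ] (VV (l * k + l * k) e p (l * m) : Submodule ℂ (Fam n M ℂ)) :=
    { toFun := fun u => ⟨t ^ l * u.1, H0_mul htl u.2, by
        have h1 : VanO ((t ^ l) e) p (l * m) := vanO_pow hv l
        have h2 : VanO (u.1 e) p 0 := by
          apply vanO_zero_of_cont
          have h3 : ContDiffOn ℝ ∞ (u.1 e) e.target := u.2.1.smooth e he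
          exact h3.continuousOn.continuousAt (e.open_target.mem_nhds hp)
        have h4 := vanO_mul h1 h2
        rwa [add_zero] at h4⟩
      map_add' := fun u w => by
        apply Subtype.ext
        show t ^ l * (u.1 + w.1) = t ^ l * u.1 + t ^ l * w.1
        ring
      map_smul' := fun c u => by
        apply Subtype.ext
        show t ^ l * (c • u.1) = c • (t ^ l * u.1)
        rw [mul_smul_comm] }
  refine LinearMap.finrank_le_finrank_of_injective (f := f) ?_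
  rw [← LinearMap.ker_eq_bot, LinearMap.ker_eq_bot']
  intro u hu
  by_contra hu0
  have h1 : u.1 ≠ 0 := fun h => hu0 (Subtype.ext h)
  have h2 : t ^ l * u.1 ≠ 0 := H0_mul_ne_zero htl u.2 htl0 h1
  exact h2 (congrArg Subtype.val hu)

theorem hp_self (k : ℕ) (φ : Fam n M ℝ) (s : Fam n M ℂ) (x : M) :
    hp k φ s s x = ((nrm k φ s x : ℝ) : ℂ) := by
  unfold hp nrm
  rw [Complex.mul_conj, Complex.normSq_eq_norm_sq]
  push_cast
  ring

theorem nrm_nonneg' (k : ℕ) (φ : Fam n M ℝ) (s : Fam n M ℂ) (x : M) : 0 ≤ nrm k φ s x := by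
  unfold nrm
  positivity

theorem integrable_cont [IsProbabilityMeasure μ] {f : M → ℝ} (hf : Continuous f) :
    Integrable f μ :=
  hf.integrable_of_hasCompactSupport (HasCompactSupport.of_compactSpace f)

/-- lower bound of one integral -/
theorem term_ge [IsProbabilityMeasure μ] (hφ : IsPos 1 φ) {K : ℕ} {N : ℕ}
    {s : Fin N → Fam n M ℂ} (hs : ∀ j, IsSec K (s j)) {α β D θ : ℝ} (hα : 0 < α) (hαβ : α ≤ β)
    (hlo : ∀ x, α ≤ ∑ j, nrm K φ (s j) x) (hup : ∀ x, ∑ j, nrm K φ (s j) x ≤ β)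
    (hD : 0 < D) (hdl : ∀ x, dl φ x ≤ D) (hθ : 0 < θ) (hθ1 : θ ≤ 1) {j : Fin N}
    (hj : ∫ x, hp K φ (s j) (s j) x * (dl φ x : ℂ) ∂μ = 1) :
    α / β * (1 / β) * (1 / D) ≤ ∫ x, nrm K φ (s j) x / (∑ i, nrm K φ (s i) x) *
      ((∑ i, nrm K φ (s i) x) ^ (-θ) / ∫ x, (∑ i, nrm K φ (s i) x) ^ (-θ) ∂μ) ∂μ := by
  have hβ : 0 < β := hα.trans_le hαβ
  set ρ : M → ℝ := fun x => ∑ i, nrm K φ (s i) x with hρ
  have hcn : ∀ i, Continuous (nrm K φ (s i)) := fun i => continuous_nrm hφ.toIsWeight (hs i)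
  have hρc : Continuous ρ := continuous_finset_sum _ (fun i _ => hcn i)
  have hρ0 : ∀ x, 0 < ρ x := fun x => hα.trans_le (hlo x)
  have hρθ : Continuous (fun x => ρ x ^ (-θ)) :=
    hρc.rpow_const (fun x => Or.inl (hρ0 x).ne')
  -- integral of the norm
  have hI : 1 / D ≤ ∫ x, nrm K φ (s j) x ∂μ := by
    have h1 : ∫ x, nrm K φ (s j) x * dl φ x ∂μ = 1 := by
      have e1 : (fun x => hp K φ (s j) (s j) x * (dl φ x : ℂ))
          = fun x => (((nrm K φ (s j) x * dl φ x : ℝ)) : ℂ) := by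
        funext x; rw [hp_self]; push_cast; rfl
      rw [e1, integral_complex_ofReal] at hj
      exact_mod_cast hj
    have h2 : ∫ x, nrm K φ (s j) x * dl φ x ∂μ ≤ ∫ x, nrm K φ (s j) x * D ∂μ := by
      refine integral_mono (integrable_cont ((hcn j).mul (continuous_dl hφ)))
        (integrable_cont ((hcn j).mul continuous_const)) (fun x => ?_)
      exact mul_le_mul_of_nonneg_left (hdl x) (nrm_nonneg' _ _ _ _)
    rw [h1, integral_mul_const] at h2
    rw [div_le_iff₀ hD]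
    exact h2
  -- Z
  set Z := ∫ x, ρ x ^ (-θ) ∂μ with hZ
  have hZle : Z ≤ α ^ (-θ) := by
    calc Z ≤ ∫ x : M, α ^ (-θ) ∂μ := by
          refine integral_mono (integrable_cont hρθ) (integrable_const _) (fun x => ?_)
          exact Real.rpow_le_rpow_of_nonpos hα (hlo x) (by linarith)
      _ = α ^ (-θ) := by simp
  have hZpos : 0 < Z := by
    have : β ^ (-θ) ≤ Z := by
      calc β ^ (-θ) = ∫ x : M, β ^ (-θ) ∂μ := by simp
        _ ≤ Z := by
          refine integral_mono (integrable_const _) (integrable_cont hρθ) (fun x => ?_)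
          exact Real.rpow_le_rpow_of_nonpos (hρ0 x) (hup x) (by linarith)
    exact (Real.rpow_pos_of_pos hβ _).trans_le this
  have hratio : ∀ x, α / β ≤ ρ x ^ (-θ) / Z := by
    intro x
    rw [le_div_iff₀ hZpos]
    calc α / β * Z ≤ α / β * α ^ (-θ) := by gcongr
      _ ≤ (α / β) ^ θ * α ^ (-θ) := by
          gcongr
          have h1 : (α / β) ^ (1 : ℝ) ≤ (α / β) ^ θ :=
            Real.rpow_le_rpow_of_exponent_ge (by positivity) ((div_le_one hβ).2 hαβ) hθ1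
          rwa [Real.rpow_one] at h1
      _ = β ^ (-θ) := by
          rw [Real.div_rpow hα.le hβ.le, Real.rpow_neg hα.le, Real.rpow_neg hβ.le]
          have := Real.rpow_pos_of_pos hα θ
          have := Real.rpow_pos_of_pos hβ θ
          field_simp
      _ ≤ ρ x ^ (-θ) := Real.rpow_le_rpow_of_nonpos (hρ0 x) (hup x) (by linarith)
  have hcont : Continuous (fun x => nrm K φ (s j) x / ρ x * (ρ x ^ (-θ) / Z)) :=
    ((hcn j).div₀ hρc (fun x => (hρ0 x).ne')).mul (hρθ.div_const _)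
  calc α / β * (1 / β) * (1 / D) ≤ α / β * (1 / β) * ∫ x, nrm K φ (s j) x ∂μ := by gcongr
    _ = ∫ x, α / β * (1 / β) * nrm K φ (s j) x ∂μ := (integral_const_mul _ _).symm
    _ ≤ _ := by
      refine integral_mono (integrable_cont (continuous_const.mul (hcn j)))
        (integrable_cont hcont) (fun x => ?_)
      have h1 := hratio x
      have h2 : 1 / β ≤ 1 / ρ x := one_div_le_one_div_of_le (hρ0 x) (hup x)
      have h3 := nrm_nonneg' K φ (s j) x
      have h4 : 0 ≤ α / β := by positivity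
      calc α / β * (1 / β) * nrm K φ (s j) x
          = (nrm K φ (s j) x * (1 / β)) * (α / β) := by ring
        _ ≤ (nrm K φ (s j) x * (1 / ρ x)) * (ρ x ^ (-θ) / Z) := by
            refine mul_le_mul (mul_le_mul_of_nonneg_left h2 h3) h1 h4 ?_
            exact mul_nonneg h3 (one_div_nonneg.2 (hρ0 x).le)
        _ = nrm K φ (s j) x / ρ x * (ρ x ^ (-θ) / Z) := by ring

end Q4baux

open Q4baux in
/-- linear bound for the order of vanishing -/
theorem ord_le [IsProbabilityMeasure μ] (hφ : IsPos 1 φ) (hμ : IsDens μ φ) :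
    ∃ G : ℕ, ∀ k : ℕ, 1 ≤ k → ∀ e ∈ atlas (E n) M, ∀ p ∈ e.target, ∀ t ∈ H0 n M k, t ≠ 0 →
      ∀ m, VanO (t e) p m → m ≤ G * k := by
  obtain ⟨C, hC, hCu⟩ := onb_upper (n := n) hφ hμ
  obtain ⟨k₀, hk₀⟩ := onb_lower (n := n) hφ hμ (ε := 1 / 2) (by norm_num) (by norm_num)
  -- bounds for dl
  have hdlc : Continuous (dl φ) := continuous_dl hφ
  obtain ⟨x₁, -, hx₁⟩ := isCompact_univ.exists_isMaxOn univ_nonempty hdlc.continuousOn
  obtain ⟨x₂, -, hx₂⟩ := isCompact_univ.exists_isMinOn univ_nonempty hdlc.continuousOn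
  set D := dl φ x₁ with hD
  set δ := dl φ x₂ with hδ
  have hD0 : 0 < D := dl_pos hφ x₁
  have hδ0 : 0 < δ := dl_pos hφ x₂
  have hDle : ∀ x, dl φ x ≤ D := fun x => hx₁ (mem_univ x)
  have hδle : ∀ x, δ ≤ dl φ x := fun x => hx₂ (mem_univ x)
  set a : ℝ := 1 / 2 * (1 / Real.pi) ^ n with ha
  have ha0 : 0 < a := by have := Real.pi_pos; positivity
  have hlow : ∀ k ≥ k₀, 1 ≤ k ∧ ∀ (N : ℕ) (s : Fin N → Fam n M ℂ), IsONB μ φ k s →
      ∀ x, a * (k : ℝ) ^ n ≤ ∑ j, nrm k φ (s j) x := by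
    intro k hk
    obtain ⟨h1, h2⟩ := hk₀ k hk
    refine ⟨h1, fun N s hs x => ?_⟩
    have h3 := (h2 N s hs).2 x
    have e1 : (1 - 1 / 2 : ℝ) * ((k : ℝ) / Real.pi) ^ n = a * (k : ℝ) ^ n := by
      rw [ha, div_pow, div_pow, one_pow]; ring
    rwa [e1] at h3
  -- dimension bound
  have hdim : ∀ k ≥ k₀, a * δ * (k : ℝ) ^ n ≤ Module.finrank ℂ (H0 n M k) := by
    intro k hk
    obtain ⟨h1, h2⟩ := hlow k hk
    obtain ⟨N, s, hs⟩ := onb_exists (n := n) hφ hμ h1
    obtain ⟨h3, h4⟩ := onb_card hφ hμ h1 hs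
    rw [← h3, ← h4]
    have hcn : ∀ i, Continuous (nrm k φ (s i)) := fun i =>
      continuous_nrm hφ.toIsWeight (hs.1 i).1.toIsSec
    have hρc : Continuous (fun x => ∑ i, nrm k φ (s i) x) :=
      continuous_finset_sum _ (fun i _ => hcn i)
    calc a * δ * (k : ℝ) ^ n = ∫ x : M, a * (k : ℝ) ^ n * δ ∂μ := by simp; ring
      _ ≤ _ := by
        refine integral_mono (integrable_const _) (integrable_cont (hρc.mul hdlc)) (fun x => ?_)
        have h5 := h2 N s hs x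
        have h6 : 0 ≤ a * (k : ℝ) ^ n := by positivity
        exact mul_le_mul h5 (hδle x) hδ0.le (h6.trans h5)
  set κ : ℝ := a / C * (1 / (C * D)) * (a * δ / 2 ^ n) with hκ
  have hκ0 : 0 < κ := by positivity
  obtain ⟨G, hG⟩ := exists_nat_ge (3 * n / κ)
  refine ⟨G, fun k hk e he p hp t ht ht0 m hv => ?_⟩
  -- choice of l
  set l := max k₀ 1 with hl
  have hl1 : 1 ≤ l := le_max_right _ _
  have hlk₀ : k₀ ≤ l * k := (le_max_left _ _).trans (Nat.le_mul_of_pos_right l hk)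
  set K := l * k + l * k with hK
  have hKk₀ : k₀ ≤ K := hlk₀.trans (Nat.le_add_right _ _)
  have hK1 : 1 ≤ K := (hlow K hKk₀).1
  obtain ⟨N, s, mm, hs, hsV, hmm, hcard⟩ := onb_adapted hφ hμ hK1 (fun i => VV K e p i)
    (VV_zero he hp) (fun i => VV_succ K e p i) (l * m)
  have hc := hcard (l * m) le_rfl
  have hc2 := finrank_le_VV hφ hμ hk hl1 he hp ht ht0 hv
  rw [← hK, hc] at hc2
  have hc3 : a * δ * ((l * k : ℕ) : ℝ) ^ n ≤
      ((Finset.univ.filter fun j => l * m ≤ mm j).card : ℝ) :=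
    (hdim (l * k) hlk₀).trans (by exact_mod_cast hc2)
  have hKR : (0 : ℝ) < K := by exact_mod_cast hK1
  have hKn : (0 : ℝ) < (K : ℝ) ^ n := by positivity
  have hlo : ∀ x, a * (K : ℝ) ^ n ≤ ∑ j, nrm K φ (s j) x := (hlow K hKk₀).2 N s hs
  have hup : ∀ x, ∑ j, nrm K φ (s j) x ≤ C * (K : ℝ) ^ n := hCu K hK1 N s hs
  have haC : a * (K : ℝ) ^ n ≤ C * (K : ℝ) ^ n := (hlo x₁).trans (hup x₁)
  set θ : ℝ := 1 / (K + 1) with hθ
  have hθ0 : 0 < θ := by positivity
  have hθ1 : θ ≤ 1 := by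
    rw [hθ, div_le_one (by positivity)]; linarith
  have hθK : θ * K < 1 := by
    rw [hθ, one_div, inv_mul_lt_iff₀ (by positivity)]; linarith
  have havg := avg_ord hφ hμ (k := K) (s := s) (fun j => (hs.1 j).1)
    (fun x => (by positivity : (0 : ℝ) < a * (K : ℝ) ^ n).trans_le (hlo x)) he hp (m := mm)
    (fun j => (hsV j).2) hθ0 hθK
  have hterm : ∀ j, a / C * (1 / (C * D)) / (K : ℝ) ^ n ≤
      ∫ x, nrm K φ (s j) x / (∑ i, nrm K φ (s i) x) *
      ((∑ i, nrm K φ (s i) x) ^ (-θ) / ∫ x, (∑ i, nrm K φ (s i) x) ^ (-θ) ∂μ) ∂μ := by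
    intro j
    have h1 := term_ge (D := D) hφ (fun j => (hs.1 j).1.toIsSec)
      (by positivity : (0 : ℝ) < a * (K : ℝ) ^ n) haC hlo hup hD0 hDle hθ0 hθ1 (j := j)
      (by rw [hs.2.1 j j, if_pos rfl])
    refine le_trans (le_of_eq ?_) h1
    field_simp
  have hsum : (Finset.univ.filter fun j => l * m ≤ mm j).card *
      ((l * m : ℕ) * (a / C * (1 / (C * D)) / (K : ℝ) ^ n)) ≤
      ∑ j, mm j * (∫ x, nrm K φ (s j) x / (∑ i, nrm K φ (s i) x) *
      ((∑ i, nrm K φ (s i) x) ^ (-θ) / ∫ x, (∑ i, nrm K φ (s i) x) ^ (-θ) ∂μ) ∂μ) := by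
    have hτ : 0 ≤ a / C * (1 / (C * D)) / (K : ℝ) ^ n := by positivity
    calc ((Finset.univ.filter fun j => l * m ≤ mm j).card : ℝ) *
          ((l * m : ℕ) * (a / C * (1 / (C * D)) / (K : ℝ) ^ n))
        = ∑ j ∈ Finset.univ.filter fun j => l * m ≤ mm j,
            ((l * m : ℕ) * (a / C * (1 / (C * D)) / (K : ℝ) ^ n) : ℝ) := by
          rw [Finset.sum_const, nsmul_eq_mul]
      _ ≤ ∑ j ∈ Finset.univ.filter fun j => l * m ≤ mm j,
            (mm j * (∫ x, nrm K φ (s j) x / (∑ i, nrm K φ (s i) x) *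
      ((∑ i, nrm K φ (s i) x) ^ (-θ) / ∫ x, (∑ i, nrm K φ (s i) x) ^ (-θ) ∂μ) ∂μ) : ℝ) := by
          refine Finset.sum_le_sum (fun j hj => ?_)
          have hj' : l * m ≤ mm j := (Finset.mem_filter.1 hj).2
          exact mul_le_mul (by exact_mod_cast hj') (hterm j) hτ (Nat.cast_nonneg _)
      _ ≤ _ := by
          refine Finset.sum_le_sum_of_subset_of_nonneg (Finset.filter_subset _ _)
            (fun j _ _ => mul_nonneg (Nat.cast_nonneg _) (hτ.trans (hterm j)))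
  -- conclusion
  have h1 : θ * (a * δ * ((l * k : ℕ) : ℝ) ^ n *
      ((l * m : ℕ) * (a / C * (1 / (C * D)) / (K : ℝ) ^ n))) ≤ n := by
    refine le_trans ?_ havg
    refine mul_le_mul_of_nonneg_left ?_ hθ0.le
    refine le_trans ?_ hsum
    refine mul_le_mul_of_nonneg_right hc3 (by positivity)
  have hKlk : (K : ℝ) = 2 * ((l * k : ℕ) : ℝ) := by rw [hK]; push_cast; ring
  have hlk0 : (0 : ℝ) < ((l * k : ℕ) : ℝ) := by
    have : 0 < l * k := Nat.mul_pos hl1 hk
    exact_mod_cast this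
  have h2 : θ * (a * δ * ((l * k : ℕ) : ℝ) ^ n *
      ((l * m : ℕ) * (a / C * (1 / (C * D)) / (K : ℝ) ^ n))) = θ * (κ * (l * m : ℕ)) := by
    rw [hKlk, mul_pow, hκ]
    field_simp
  rw [h2, hθ, one_div, inv_mul_le_iff₀ (by positivity)] at h1
  have h3 : κ * (l * m : ℕ) ≤ 3 * n * (l * k : ℕ) := by
    refine h1.trans ?_
    have h4 : (K : ℝ) + 1 ≤ 3 * ((l * k : ℕ) : ℝ) := by
      have : (1 : ℝ) ≤ ((l * k : ℕ) : ℝ) := by
        have : 1 ≤ l * k := Nat.mul_pos hl1 hk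
        exact_mod_cast this
      rw [hKlk]; linarith
    calc ((K : ℝ) + 1) * n ≤ 3 * ((l * k : ℕ) : ℝ) * n := by gcongr
      _ = _ := by ring
  have hl0 : (0 : ℝ) < l := by exact_mod_cast hl1
  have h5 : κ * m ≤ 3 * n * k := by
    push_cast at h3
    have h6 : (l : ℝ) * (κ * m) ≤ l * (3 * n * k) := by linarith
    exact le_of_mul_le_mul_left h6 hl0
  have h7 : (m : ℝ) ≤ 3 * n / κ * k := by
    rw [div_mul_eq_mul_div, le_div_iff₀ hκ0]; linarith
  have h8 : (m : ℝ) ≤ G * k := h7.trans (by gcongr)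
  exact_mod_cast h8

end Pool.Agent.helper63.NU
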